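import Pool.Agent.Helper75.Nil.Main

/-!
# Topologically transitive nilspace systems are ergodic

The definitions (nilspaces, translations, factors, Haar measure) are in
`Pool.Agent.Helper75.Nil.Defs`.

Let `(X, C)` be a compact `k`-step nilspace with Haar measure `μ`, let `G` be any group (countable
nilpotent groups are a special case) and let `φ : G → Tran(X)` be a homomorphism.  If `(X, G, φ)`
is topologically transitive then `(X, μ, G, φ)` is ergodic.

Idea of the proof.  By induction on `k`, for all groups of translations of all compact `k`-step
nilspaces at once (so that the induction may be applied to the cube group `HK^n(G)` acting on the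
orbit closure `Q` of a constant cube in `X^{2^n}`), one shows that orbit closures are minimal and
that averages of continuous functions converge uniformly to constants.  In the step from `k-1` to
`k`, `X` is an extension of its factor by the compact abelian structure group `Z`; an orbit closure
`O` is an extension of its image by the stabiliser `H ≤ Z`.  If uniform convergence fails, there is
a measurable `G`-invariant function `f` of modulus one on `O` that is an eigenfunction for a
nontrivial character of `H`.  The alternating product of `f` over the vertices of `(k+1)`-cubes is
then invariant under the cube group and under the stabiliser of `Q` in `Z^{2^{k+1}}`, hence constant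
on `Q`, so that `f` at the base point is a product of the values of `f` at the other vertices.
Since the law of any other vertex is independent of the base point, and since the conditional
expectation on the base point maps continuous functions to continuous functions, `f` is
a uniform limit of continuous functions in the dual sense, which is impossible by minimality.
-/

open MeasureTheory

namespace Pool.Agent.Results.MP_913761_an.TransitiveErgodic

open Nil75

universe u v

/-- Sanity check (not part of the result): a `(j+1)`-step compact nilspace has a top structure
group that acts simply transitively on the fibres of the projection to the `j`-step factor: this is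
the group of homeomorphisms that preserve cubes when applied on faces of codimension `j+1`. -/
theorem structure_group_simply_transitive {X : Type u} [TopologicalSpace X] [CompactSpace X]
    [T2Space X] {C : CubeStructure X} (hC : IsNilspace C) (hcl : ∀ n, IsClosed (C n)) {j : ℕ}
    (hj : IsStep C (j + 1)) (x y : X) :
    toFactor C j x = toFactor C j y ↔
      ∃! α : X ≃ₜ X, PreservesCubes C (j + 1) α ∧ α x = y := by
  rw [toFactor_eq_iff hC]
  constructor
  · intro h
    obtain ⟨z, hz⟩ := Zg_trans hC hj h
    refine ⟨Zhomeo hC hcl hj z, ⟨z.2, hz⟩, ?_⟩
    rintro β ⟨hβ, hβx⟩
    let w : Zg hC hj := ⟨β.toEquiv, hβ⟩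
    have hw : (z⁻¹ * w) • x = x := by
      rw [mul_smul]
      have h1 : w • x = z • x := by rw [hz]; exact hβx
      rw [h1, inv_smul_smul]
    have h2 : w = z := (inv_mul_eq_one.1 (Zg_free hC hj hw)).symm
    ext a
    have h3 : w • a = z • a := by rw [h2]
    exact h3
  · rintro ⟨α, ⟨hα, rfl⟩, -⟩
    exact Zg_sim hC hj ⟨α.toEquiv, hα⟩ x

/-- Sanity check (not part of the result): a nonempty compact nilspace has exactly one Haar
measure. -/
theorem haar_measure_exists_unique {X : Type u} [TopologicalSpace X] [CompactSpace X] [T2Space X]
    [SecondCountableTopology X] [MeasurableSpace X] [BorelSpace X] [Nonempty X]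
    {C : CubeStructure X} (hC : IsNilspace C) (hcl : ∀ n, IsClosed (C n)) {k : ℕ}
    (hk : IsStep C k) : ∃! μ : Measure X, IsHaar k C μ :=
  haar_exists_unique k X C hC hcl hk

/-- **Topologically transitive nilspace systems are ergodic.**  Let `X` be a compact `k`-step
nilspace (compact Hausdorff second countable, with closed cube sets), `μ` its Haar measure, `G` a
group and `φ` a homomorphism from `G` to the translation group of `X`.  If for all nonempty open
`U`, `V` there is `g` with `φ(g)U ∩ V ≠ ∅`, then every `φ(G)`-invariant Borel set has `μ`-measure
`0` or `1`. -/
theorem result {X : Type u} [TopologicalSpace X] [CompactSpace X] [T2Space X]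
    [SecondCountableTopology X] [MeasurableSpace X] [BorelSpace X]
    (C : CubeStructure X) (hC : IsNilspace C) (hcl : ∀ n, IsClosed (C n))
    (k : ℕ) (hk : IsStep C k) (μ : Measure X) (hμ : IsHaar k C μ)
    (G : Type v) [Group G] (φ : G →* (X ≃ₜ X)) (hφ : ∀ g, IsTranslation C (φ g))
    (htrans : ∀ U V : Set X, IsOpen U → U.Nonempty → IsOpen V → V.Nonempty →
      ∃ g : G, (φ g '' U ∩ V).Nonempty) :
    ∀ A : Set X, MeasurableSet A → (∀ g : G, φ g ⁻¹' A = A) → μ A = 0 ∨ μ A = 1 := by
  letI : MulAction G X :=
    { smul := fun g x => φ g x
      one_smul := fun x => by
        change φ 1 x = x
        rw [map_one]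
        rfl
      mul_smul := fun g h x => by
        change φ (g * h) x = φ g (φ h x)
        rw [map_mul]
        rfl }
  haveI : ContinuousConstSMul G X := ⟨fun g => (φ g).continuous⟩
  exact (main hC hcl hk hμ (Γ := G) hφ htrans).1

end Pool.Agent.Results.MP_913761_an.TransitiveErgodic
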